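import Pool.Agent.H984P.Defs

set_option autoImplicit false

/-!
# Task BC: prescribed values on infinitely many disjoint finite sets of bounded size occur
-/

namespace Pool.Agent.H984P

open Pool.Agent.H988R2.Perc Pool.Agent.H31C Finset MeasureTheory ProbabilityTheory
open scoped ENNReal

theorem BCAux.coin_singleton (b : Bool) : coin {b} = 1/2 := by
  simp [coin]

theorem t_BC : S_BC := by
  classical
  intro F c K hdisj hcard
  have hind : iIndepFun (fun (e : Edge) (ω : Conf) => ω e) perc := by
    unfold perc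
    exact iIndepFun_infinitePi (X := fun _ b => b) (fun _ => measurable_id)
  have h1 : ∀ e : Edge, perc ((fun ω : Conf => ω e) ⁻¹' {c e}) = 1 / 2 := by
    intro e
    have := (measurePreserving_eval_infinitePi (fun _ : Edge => coin) e).measure_preimage
      (measurableSet_singleton (c e)).nullMeasurableSet
    unfold perc
    rw [← BCAux.coin_singleton (c e), ← this]
  set A : ℕ → Set Conf := fun i => ⋂ e ∈ F i, (fun ω : Conf => ω e) ⁻¹' {c e} with hAdef
  have hAm : ∀ i, MeasurableSet (A i) := fun i =>
    Finset.measurableSet_biInter _ fun e _ => (measurable_pi_apply e) (measurableSet_singleton _)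
  have hA : ∀ i, perc (A i) = (1 / 2) ^ (F i).card := by
    intro i
    have h3 := hind.measure_inter_preimage_eq_mul (F i) (sets := fun e => {c e})
      (fun e _ => measurableSet_singleton _)
    rw [hAdef]
    simp only
    rw [h3]
    simp only [h1]
    rw [Finset.prod_const]
  have hAc : ∀ i, perc {ω | ∃ e ∈ F i, ω e ≠ c e} ≤ 1 - (1 / 2) ^ K := by
    intro i
    have he : {ω : Conf | ∃ e ∈ F i, ω e ≠ c e} = (A i)ᶜ := by
      ext ω
      simp only [hAdef, Set.mem_ofPred_eq, Set.mem_compl_iff, Set.mem_iInter, Set.mem_preimage,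
        Set.mem_singleton_iff, not_forall, exists_prop]
    rw [he, prob_compl_eq_one_sub (hAm i), hA i]
    apply tsub_le_tsub_left
    apply pow_le_pow_of_le_one zero_le _ (hcard i)
    simp
  have hN : ∀ N : ℕ, perc {ω | ∀ i < N, ∃ e ∈ F i, ω e ≠ c e} ≤ (1 - (1 / 2) ^ K) ^ N := by
    intro N
    induction N with
    | zero => rw [pow_zero]; exact prob_le_one
    | succ N ih =>
      have hS : Disjoint ((Finset.range N).biUnion F) (F N) := by
        rw [Finset.disjoint_biUnion_left]
        intro i hi
        exact hdisj i N (Finset.mem_range.1 hi).ne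
      have hI := hind.indepFun_finset _ _ hS (fun e => measurable_pi_apply e)
      have hm := hI.measure_inter_preimage_eq_mul
        {g : ((Finset.range N).biUnion F) → Bool | ∀ i < N, ∃ e, ∃ h : e ∈ (Finset.range N).biUnion F,
          e ∈ F i ∧ g ⟨e, h⟩ ≠ c e}
        {g : (F N) → Bool | ∃ e : F N, g e ≠ c e}
        (Set.toFinite _).measurableSet (Set.toFinite _).measurableSet
      have e1 : (fun (ω : Conf) (e : ((Finset.range N).biUnion F)) => ω e) ⁻¹'
          {g : ((Finset.range N).biUnion F) → Bool | ∀ i < N,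
            ∃ e, ∃ h : e ∈ (Finset.range N).biUnion F, e ∈ F i ∧ g ⟨e, h⟩ ≠ c e} =
          {ω | ∀ i < N, ∃ e ∈ F i, ω e ≠ c e} := by
        ext ω
        constructor
        · intro h i hi
          obtain ⟨e, _, h2, h3⟩ := h i hi
          exact ⟨e, h2, h3⟩
        · intro h i hi
          obtain ⟨e, h2, h3⟩ := h i hi
          exact ⟨e, Finset.mem_biUnion.2 ⟨i, Finset.mem_range.2 hi, h2⟩, h2, h3⟩
      have e2 : (fun (ω : Conf) (e : F N) => ω e) ⁻¹' {g : (F N) → Bool | ∃ e : F N, g e ≠ c e} =
          {ω | ∃ e ∈ F N, ω e ≠ c e} := by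
        ext ω
        constructor
        · rintro ⟨e, h⟩
          exact ⟨e, e.2, h⟩
        · rintro ⟨e, h, h'⟩
          exact ⟨⟨e, h⟩, h'⟩
      rw [e1, e2] at hm
      have e3 : {ω : Conf | ∀ i < N + 1, ∃ e ∈ F i, ω e ≠ c e} =
          {ω | ∀ i < N, ∃ e ∈ F i, ω e ≠ c e} ∩ {ω | ∃ e ∈ F N, ω e ≠ c e} := by
        ext ω
        simp only [Set.mem_ofPred_eq, Set.mem_inter_iff]
        constructor
        · intro h
          exact ⟨fun i hi => h i (by omega), h N (by omega)⟩
        · rintro ⟨h2, h3⟩ i hi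
          rcases Nat.lt_succ_iff_lt_or_eq.1 hi with h | h
          · exact h2 i h
          · rw [h]; exact h3
      rw [e3, hm, pow_succ]
      exact mul_le_mul' ih (hAc N)
  have hlt : (1 - (1 / 2) ^ K : ℝ≥0∞) < 1 := by
    apply ENNReal.sub_lt_self ENNReal.one_ne_top one_ne_zero
    apply pow_ne_zero
    simp
  have h0 : perc {ω | ¬ ∃ i, ∀ e ∈ F i, ω e = c e} = 0 := by
    have ht := ENNReal.tendsto_pow_atTop_nhds_zero_of_lt_one hlt
    refine le_antisymm (ge_of_tendsto' ht fun N => ?_) zero_le
    refine le_trans (measure_mono ?_) (hN N)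
    intro ω hω i _
    by_contra hcon
    push Not at hcon
    exact hω ⟨i, hcon⟩
  exact ae_iff.2 h0

end Pool.Agent.H984P
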