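import Pool.Agent.H984P.Defs

set_option autoImplicit false

/-! CONF: with the rows the path leaves the strip. -/

namespace Pool.Agent.H984P

open Pool.Agent.H988R2.Perc Pool.Agent.H31C Finset

namespace CONFAux

theorem finDir : (Set.univ : Set Dir).Finite := by
  refine (Set.toFinite {Dir.E, Dir.S, Dir.W, Dir.N}).subset ?_
  intro d _
  cases d <;> simp

theorem face_col (s : State) : col (face s) ≤ col s.1 + 1 ∧ col s.1 - 1 ≤ col (face s) ∧
    tm s.1 - 2 ≤ tm (face s) ∧ (col s.1 + 1 ≤ col (face s) → s.2 = Dir.S) := by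
  obtain ⟨⟨x, y⟩, d⟩ := s
  cases d <;> simp [face, col, tm] <;> omega

end CONFAux

open CONFAux in
theorem t_CONF (h1 : S_INV1) (h2 : S_INV2) (h3 : S_INJ) (h4 : S_LOW) (h5 : S_HIP) (h6 : S_HID) :
    S_CONF := by
  intro a b ω t1 t2 ha ht1 ht2 hlow hhigh hstay
  obtain ⟨B, hB⟩ : ∃ B : ℤ, B = -t1 + t2 + 2 + a + b := ⟨_, rfl⟩
  have hmem : ∀ n, path ω n ∈ (Set.Icc (-B) B ×ˢ Set.Icc (-B) B) ×ˢ (Set.univ : Set Dir) := by
    intro n
    have hin := hstay n
    have hn := hstay (n + 1) n (Nat.lt_succ_self n)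
    obtain ⟨x, hx, hxc⟩ := h1 a b ω n ha hin
    have hL := h4 a b ω t1 x _ ht1 hlow hx hxc
    have hH := h5 a b ω t2 x _ ht2 hhigh hx hxc
    obtain ⟨hval, hsp⟩ := h2 a b ω n ha hin
    obtain ⟨f1, f2, f3, f4⟩ := face_col (path ω n)
    have hup : tm (path ω n).1 ≤ t2 + 2 := by
      rcases hH with hc | hc
      · rcases hsp with hs | ⟨f, hf, hfc⟩
        · obtain ⟨e1, -, -⟩ := hs
          unfold col at hc
          omega
        · rcases h6 a b ω t2 f _ ht2 hhigh hf hfc with h | h
          · have hd : (path ω n).2 = Dir.S := f4 (by omega)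
            have hc0 : col (path ω n).1 = 0 := by omega
            by_contra hlt
            push Not at hlt
            apply hval.2
            unfold col at hc0
            unfold tm at hlt
            refine ⟨⟨by omega, by omega⟩, by omega, hd⟩
          · omega
      · omega
    have hcol : col (path ω n).1 ≤ b ∧ -(a : ℤ) < col (face (path ω n)) := hn
    unfold col at hcol f1
    unfold col at f2
    unfold tm at hup hL
    simp only [Set.mem_prod, Set.mem_Icc, Set.mem_univ, and_true]
    have g1 : (path ω n).1.1 - (path ω n).1.2 ≤ b := hcol.1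
    have g2 : -(a : ℤ) ≤ (path ω n).1.1 - (path ω n).1.2 := by omega
    have ha0 : (0 : ℤ) ≤ a := by positivity
    have hb0 : (0 : ℤ) ≤ b := by positivity
    refine ⟨⟨?_, ?_⟩, ?_, ?_⟩ <;> omega
  have hfin : ((Set.Icc (-B) B ×ˢ Set.Icc (-B) B) ×ˢ (Set.univ : Set Dir)).Finite :=
    ((Set.finite_Icc _ _).prod (Set.finite_Icc _ _)).prod finDir
  have hinf : (Set.range (path ω)).Infinite := Set.infinite_range_of_injective (h3 ω)
  exact hinf (hfin.subset (Set.range_subset_iff.2 hmem))

end Pool.Agent.H984P
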