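import Pool.Agent.H31C.Stubs

set_option autoImplicit false

/-!
# The exploration path of critical bond percolation started at the tip of a slit

Path version of the exact discrete Cardy formula in slit strips (helper984).
Column = `u - v`, time = `u + v`. The slit runs just below the diagonal vertices `(k,k)`, `k ≥ 0`
(the left bank, wired); the cut edges are the edges between the columns `0` and `1` both ends of which
have time `≥ 0`. The path follows the open cluster of the left bank, with this cluster on its right,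
and starts at the tip.
-/

namespace Pool.Agent.H984P

open Pool.Agent.H988R2.Perc Pool.Agent.H31C Finset

/-- the four directions -/
inductive Dir
  | E | S | W | N
deriving DecidableEq

/-- next direction clockwise -/
def Dir.cw : Dir → Dir
  | .E => .S
  | .S => .W
  | .W => .N
  | .N => .E

/-- opposite direction -/
def Dir.opp : Dir → Dir
  | .E => .W
  | .S => .N
  | .W => .E
  | .N => .S

/-- unit vector -/
def Dir.vec : Dir → ℤ × ℤ
  | .E => (1, 0)
  | .S => (0, -1)
  | .W => (-1, 0)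
  | .N => (0, 1)

/-- the edge which leaves `v` in direction `d` -/
def edgeOf (v : ℤ × ℤ) : Dir → Edge
  | .E => (v.1, v.2, false)
  | .W => (v.1 - 1, v.2, false)
  | .N => (v.1, v.2, true)
  | .S => (v.1, v.2 - 1, true)

/-- the left bank of the slit: the vertices `(k,k)`, `k ≥ 0` -/
def OnBank (v : ℤ × ℤ) : Prop := v.1 = v.2 ∧ 0 ≤ v.1

instance (v : ℤ × ℤ) : Decidable (OnBank v) := by unfold OnBank; infer_instance

/-- the edges cut by the slit: `(k,k)-(k+1,k)` and `(k+1,k)-(k+1,k+1)`, `k ≥ 0` -/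
def Cut (e : Edge) : Prop :=
  (e.2.2 = false ∧ e.1 = e.2.1 ∧ 0 ≤ e.1) ∨ (e.2.2 = true ∧ e.1 = e.2.1 + 1 ∧ 0 ≤ e.2.1)

instance (e : Edge) : Decidable (Cut e) := by unfold Cut; infer_instance

/-- the edge at `v` in direction `d` is open and not cut -/
def opn (ω : Conf) (v : ℤ × ℤ) (d : Dir) : Bool := ω (edgeOf v d) && !decide (Cut (edgeOf v d))

/-- a state of the path: it is at the vertex `v`, in the corner before the direction `d`
(clockwise), and looks at the edge in direction `d` -/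
abbrev State := (ℤ × ℤ) × Dir

/-- the state after the direction `d` at `v` (clockwise); at the wired left bank the path goes from
`(k,k)` to `(k+1,k+1)` after the direction `N` -/
def nx (v : ℤ × ℤ) (d : Dir) : State :=
  if d = Dir.N ∧ OnBank v then ((v.1 + 1, v.2 + 1), Dir.W) else (v, d.cw)

/-- one step: cross the edge if it is open, otherwise turn clockwise around the vertex -/
def step (ω : Conf) (s : State) : State :=
  if opn ω s.1 s.2 = true then nx (s.1 + s.2.vec) s.2.opp else nx s.1 s.2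

/-- the exploration path started at the tip of the slit -/
def path (ω : Conf) (n : ℕ) : State := (step ω)^[n] ((0, 0), Dir.S)

/-- column of a vertex (or of a face, labelled by its lower left corner) -/
def col (v : ℤ × ℤ) : ℤ := v.1 - v.2

/-- time of a vertex -/
def tm (v : ℤ × ℤ) : ℤ := v.1 + v.2

/-- the face (labelled by its lower left corner) on the left of the path -/
def face (s : State) : ℤ × ℤ :=
  match s.2 with
  | .E => s.1
  | .S => (s.1.1, s.1.2 - 1)
  | .W => (s.1.1 - 1, s.1.2 - 1)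
  | .N => (s.1.1 - 1, s.1.2)

/-- the path reaches the column `b+1` before the faces on its left reach the column `-a` -/
def RightFirst (a b : ℕ) : Set Conf :=
  {ω | ∃ n, (b : ℤ) + 1 ≤ col (path ω n).1 ∧ ∀ m ≤ n, -(a : ℤ) < col (face (path ω m))}

/-- the faces on the left of the path reach the column `-a` before the path reaches the column
`b+1` -/
def LeftFirst (a b : ℕ) : Set Conf :=
  {ω | ∃ n, col (face (path ω n)) ≤ -(a : ℤ) ∧ ∀ m ≤ n, col (path ω m).1 < (b : ℤ) + 1}

/-! ## centred crossing events -/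

/-- open adjacency in the slit strip -/
def SAdj (a b : ℕ) (ω : Conf) (x y : ℤ × ℤ) : Prop :=
  ∃ d : Dir, y = x + d.vec ∧ opn ω x d = true ∧ -(a : ℤ) ≤ col x ∧ col x ≤ (b : ℤ) + 1 ∧
    -(a : ℤ) ≤ col y ∧ col y ≤ (b : ℤ) + 1

/-- the left bank is joined to the column `b+1` in the slit strip -/
def CrossC (a b : ℕ) : Set Conf :=
  {ω | ∃ x y : ℤ × ℤ, OnBank x ∧ col y = (b : ℤ) + 1 ∧ Relation.ReflTransGen (SAdj a b ω) x y}

/-- the edge crossed when one leaves the face `f` (lower left corner) in direction `d` -/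
def dedge (f : ℤ × ℤ) : Dir → Edge
  | .E => (f.1 + 1, f.2, true)
  | .W => (f.1, f.2, true)
  | .N => (f.1, f.2 + 1, false)
  | .S => (f.1, f.2, false)

/-- the dual edge is open and not cut -/
def dopn (ω : Conf) (f : ℤ × ℤ) (d : Dir) : Bool := !ω (dedge f d) && !decide (Cut (dedge f d))

/-- dual adjacency in the slit strip -/
def DAdj (a b : ℕ) (ω : Conf) (f g : ℤ × ℤ) : Prop :=
  ∃ d : Dir, g = f + d.vec ∧ dopn ω f d = true ∧ -(a : ℤ) ≤ col f ∧ col f ≤ (b : ℤ) + 1 ∧
    -(a : ℤ) ≤ col g ∧ col g ≤ (b : ℤ) + 1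

/-- the faces of the right bank -/
def OnRight (f : ℤ × ℤ) : Prop := f.1 = f.2 + 1 ∧ 0 ≤ f.1

/-- the right bank is joined to the faces of column `-a` by a dual path in the slit strip -/
def DCross (a b : ℕ) : Set Conf :=
  {ω | ∃ f g : ℤ × ℤ, OnRight f ∧ col g = -(a : ℤ) ∧ Relation.ReflTransGen (DAdj a b ω) f g}

/-! ## auxiliary notions -/

/-- the path has not left the strip before time `n` -/
def In (a b : ℕ) (ω : Conf) (n : ℕ) : Prop :=
  ∀ m < n, col (path ω m).1 ≤ (b : ℤ) ∧ -(a : ℤ) < col (face (path ω m))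

/-- states which can occur -/
def Valid (s : State) : Prop :=
  ¬ (OnBank s.1 ∧ s.2 = Dir.E) ∧ ¬ (OnBank s.1 ∧ 1 ≤ s.1.1 ∧ s.2 = Dir.S)

/-- the path passes the lower right half of a face cut by the slit -/
def Special (s : State) : Prop := s.1.1 = s.1.2 + 1 ∧ 0 ≤ s.1.2 ∧ s.2 = Dir.N

/-- all edges of the strip between the times `t` and `t+1` are closed -/
def RowLow (a b : ℕ) (t : ℤ) (ω : Conf) : Prop :=
  ∀ (v : ℤ × ℤ) (d : Dir), (d = Dir.E ∨ d = Dir.N) → tm v = t → -(a : ℤ) ≤ col v →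
    col v ≤ (b : ℤ) + 1 → ω (edgeOf v d) = false

/-- between the times `t` and `t+1` all edges are closed in the right channel and open in the left
channel -/
def RowHigh (a b : ℕ) (t : ℤ) (ω : Conf) : Prop :=
  ∀ (v : ℤ × ℤ) (d : Dir), (d = Dir.E ∨ d = Dir.N) → tm v = t → -(a : ℤ) ≤ col v →
    col v ≤ (b : ℤ) + 1 →
    (1 ≤ col v → 1 ≤ col (v + d.vec) → ω (edgeOf v d) = false) ∧
    (col v ≤ 0 → col (v + d.vec) ≤ 0 → ω (edgeOf v d) = true)

/-- the path never leaves the strip -/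
def Stay (a b : ℕ) (ω : Conf) : Prop := ∀ n, In a b ω n

/-! ## the tasks -/

/-- INV1: the vertices of the path are joined to the left bank. -/
def S_INV1 : Prop := ∀ (a b : ℕ) (ω : Conf) (n : ℕ), 1 ≤ a → In a b ω n →
  ∃ x, OnBank x ∧ Relation.ReflTransGen (SAdj a b ω) x (path ω n).1

/-- INV2: the faces on the left of the path are joined to the right bank. -/
def S_INV2 : Prop := ∀ (a b : ℕ) (ω : Conf) (n : ℕ), 1 ≤ a → In a b ω n →
  Valid (path ω n) ∧ (Special (path ω n) ∨
    ∃ f, OnRight f ∧ Relation.ReflTransGen (DAdj a b ω) f (face (path ω n)))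

/-- INJ: the path visits every state at most once. -/
def S_INJ : Prop := ∀ ω : Conf, Function.Injective (path ω)

/-- RC. -/
def S_RC : Prop := ∀ a b : ℕ, 1 ≤ a → RightFirst a b ⊆ CrossC a b

/-- LC. -/
def S_LC : Prop := ∀ a b : ℕ, 1 ≤ a → LeftFirst a b ⊆ DCross a b

/-- LOW: a closed row below the tip cannot be crossed. -/
def S_LOW : Prop := ∀ (a b : ℕ) (ω : Conf) (t : ℤ) (x y : ℤ × ℤ), t < 0 → RowLow a b t ω →
  OnBank x → Relation.ReflTransGen (SAdj a b ω) x y → t < tm y

/-- HIP: primal paths do not go up in the right channel. -/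
def S_HIP : Prop := ∀ (a b : ℕ) (ω : Conf) (t : ℤ) (x y : ℤ × ℤ), 0 ≤ t → RowHigh a b t ω →
  OnBank x → Relation.ReflTransGen (SAdj a b ω) x y → col y ≤ 0 ∨ tm y ≤ t

/-- HID: dual paths do not go up in the left channel (the face `g` has time `tm g + 1`). -/
def S_HID : Prop := ∀ (a b : ℕ) (ω : Conf) (t : ℤ) (f g : ℤ × ℤ), 0 ≤ t → RowHigh a b t ω →
  OnRight f → Relation.ReflTransGen (DAdj a b ω) f g → 1 ≤ col g ∨ tm g + 1 ≤ t

/-- CONF: with such rows the path leaves the strip. -/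
def S_CONF : Prop := ∀ (a b : ℕ) (ω : Conf) (t1 t2 : ℤ), 1 ≤ a → t1 < 0 → 0 ≤ t2 →
  RowLow a b t1 ω → RowHigh a b t2 ω → ¬ Stay a b ω

/-- BC: prescribed values on infinitely many disjoint finite sets of bounded size occur. -/
def S_BC : Prop := ∀ (F : ℕ → Finset Edge) (c : Edge → Bool) (K : ℕ),
  (∀ i j, i ≠ j → Disjoint (F i) (F j)) → (∀ i, (F i).card ≤ K) →
  ∀ᵐ ω ∂perc, ∃ i, ∀ e ∈ F i, ω e = c e

/-- ROWS. -/
def S_ROWS : Prop := ∀ a b : ℕ,
  ∀ᵐ ω ∂perc, (∃ t : ℤ, t < 0 ∧ RowLow a b t ω) ∧ (∃ t : ℤ, 0 ≤ t ∧ RowHigh a b t ω)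

/-- EXIT: the path leaves the strip almost surely. -/
def S_EXIT : Prop := ∀ a b : ℕ, 1 ≤ a → ∀ᵐ ω ∂perc, ω ∈ RightFirst a b ∪ LeftFirst a b

/-- TR: translation. -/
def S_TR : Prop := ∀ a b : ℕ, Odd a → perc.real (CrossC a b) = perc.real (Cross a b)

/-- DU: duality. -/
def S_DU : Prop := ∀ a b : ℕ, perc.real (DCross a b) = perc.real (CrossC b a)

/-- SUM. -/
def S_SUM : Prop := ∀ a b : ℕ, (∑ k ∈ range (a+1), bw (a+b+1) k) + ∑ k ∈ range (b+1), bw (a+b+1) k = 1

/-- EX: the exact law. -/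
def S_EX : Prop := ∀ a b : ℕ, Odd a → Odd b →
  perc.real (RightFirst a b) = (∑ k ∈ range (a+1), bw (a+b+1) k) ∧
  perc.real (LeftFirst a b) = ∑ k ∈ range (b+1), bw (a+b+1) k

/-- MON: monotonicity. -/
def S_MON : Prop := ∀ a b a' b' : ℕ, a ≤ a' → b' ≤ b → RightFirst a b ⊆ RightFirst a' b'

open Filter Topology in
/-- LIM: the limit law, for all sequences. -/
def S_LIM : Prop := ∀ (a b : ℕ → ℕ) (x : ℝ), 0 < x → x < 1 →
  Tendsto (fun n => (a n : ℝ) + b n) atTop atTop →
  Tendsto (fun n => (a n : ℝ) / (a n + b n)) atTop (𝓝 x) →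
  Tendsto (fun n => perc.real (RightFirst (a n) (b n))) atTop
    (𝓝 ((∫ t in (0:ℝ)..x, (t*(1-t))^(-(2:ℝ)/3)) / ∫ t in (0:ℝ)..1, (t*(1-t))^(-(2:ℝ)/3)))

end Pool.Agent.H984P
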