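import Pool.Agent.H984P.Defs

set_option autoImplicit false

namespace Pool.Agent.H984P

open Pool.Agent.H988R2.Perc Pool.Agent.H31C Finset

namespace EXITAux

theorem col_le (s : State) : col s.1 ≤ col (face s) + 1 := by
  obtain ⟨⟨x, y⟩, d⟩ := s
  cases d <;> simp only [face, col] <;> omega

theorem exists_exit (a b : ℕ) (ω : Conf) (h : ¬ Stay a b ω) :
    ∃ m, (b : ℤ) + 1 ≤ col (path ω m).1 ∨ col (face (path ω m)) ≤ -(a : ℤ) := by
  by_contra hcon
  apply h
  intro n m _
  have h1 : ¬ ((b : ℤ) + 1 ≤ col (path ω m).1 ∨ col (face (path ω m)) ≤ -(a : ℤ)) :=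
    fun hm => hcon ⟨m, hm⟩
  constructor
  · by_contra h2
    exact h1 (Or.inl (by omega))
  · by_contra h2
    exact h1 (Or.inr (by omega))

theorem det (a b : ℕ) (ω : Conf) (ha : 1 ≤ a) (h : ¬ Stay a b ω) :
    ω ∈ RightFirst a b ∪ LeftFirst a b := by
  classical
  have hE := exists_exit a b ω h
  have hm := Nat.find_spec hE
  have hmin : ∀ k < Nat.find hE,
      ¬ ((b : ℤ) + 1 ≤ col (path ω k).1 ∨ col (face (path ω k)) ≤ -(a : ℤ)) :=
    fun k hk => Nat.find_min hE hk
  by_cases hf : col (face (path ω (Nat.find hE))) ≤ -(a : ℤ)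
  · right
    refine ⟨Nat.find hE, hf, ?_⟩
    intro k hk
    rcases lt_or_eq_of_le hk with hk | hk
    · have h1 := hmin k hk
      by_contra h2
      exact h1 (Or.inl (by omega))
    · rw [hk]
      have h1 := col_le (path ω (Nat.find hE))
      have h2 : (1 : ℤ) ≤ a := by exact_mod_cast ha
      have h3 : (0 : ℤ) ≤ b := Int.natCast_nonneg b
      omega
  · left
    refine ⟨Nat.find hE, hm.resolve_right hf, ?_⟩
    intro k hk
    rcases lt_or_eq_of_le hk with hk | hk
    · have h1 := hmin k hk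
      by_contra h2
      exact h1 (Or.inr (by omega))
    · rw [hk]
      omega

end EXITAux

theorem t_EXIT (h1 : S_CONF) (h2 : S_ROWS) : S_EXIT := by
  intro a b ha
  filter_upwards [h2 a b] with ω hω
  obtain ⟨⟨t1, ht1, hl⟩, t2, ht2, hh⟩ := hω
  exact EXITAux.det a b ω ha (h1 a b ω t1 t2 ha ht1 ht2 hl hh)

end Pool.Agent.H984P
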