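import Pool.Agent.H984P.Defs

set_option autoImplicit false

/-!
# HID: dual paths do not go up in the left channel
-/

namespace Pool.Agent.H984P

open Pool.Agent.H988R2.Perc Pool.Agent.H31C Finset

theorem t_HID : S_HID := by
  intro a b ω t f g ht hR hf hfg
  induction hfg with
  | refl =>
    left
    unfold OnRight at hf
    unfold col
    omega
  | @tail f g _ hadj ih =>
    obtain ⟨d, hg, hd, h1, h2, h3, h4⟩ := hadj
    obtain ⟨f1, f2⟩ := f
    have hd' : ω (dedge (f1, f2) d) = false ∧ ¬ Cut (dedge (f1, f2) d) := by
      unfold dopn at hd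
      simpa using hd
    obtain ⟨ho, hc⟩ := hd'
    subst hg
    cases d with
    | E =>
      simp only [Dir.vec, dedge, col, tm, Prod.mk_add_mk, add_zero] at *
      by_contra hcon
      push Not at hcon
      obtain ⟨c1, c2⟩ := hcon
      have hv := (hR (f1 + 1, f2) Dir.N (Or.inr rfl) (by simp only [tm]; omega)
        (by simp only [col]; omega) (by simp only [col]; omega)).2
        (by simp only [col]; omega) (by simp only [col, Dir.vec, Prod.mk_add_mk]; omega)
      simp only [edgeOf] at hv
      rw [hv] at ho
      exact absurd ho (by decide)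
    | N =>
      simp only [Dir.vec, dedge, col, tm, Prod.mk_add_mk, add_zero, Cut] at *
      by_contra hcon
      push Not at hcon
      obtain ⟨c1, c2⟩ := hcon
      have hc1 : ¬ (f1 = f2 + 1 ∧ 0 ≤ f1) := fun h => hc (Or.inl ⟨trivial, h.1, h.2⟩)
      have hv := (hR (f1, f2 + 1) Dir.E (Or.inl rfl) (by simp only [tm]; omega)
        (by simp only [col]; omega) (by simp only [col]; omega)).2
        (by simp only [col]; omega) (by simp only [col, Dir.vec, Prod.mk_add_mk]; omega)
      simp only [edgeOf] at hv
      rw [hv] at ho
      exact absurd ho (by decide)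
    | W =>
      simp only [Dir.vec, dedge, col, tm, Prod.mk_add_mk, add_zero, Cut] at *
      have hc1 : ¬ (f1 = f2 + 1 ∧ 0 ≤ f2) := fun h => hc (Or.inr ⟨trivial, h.1, h.2⟩)
      omega
    | S =>
      simp only [Dir.vec, dedge, col, tm, Prod.mk_add_mk, add_zero] at *
      omega

end Pool.Agent.H984P
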