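import Pool.Agent.H984P.Defs

set_option autoImplicit false

/-!
# HIP: primal paths do not go up in the right channel
-/

namespace Pool.Agent.H984P

open Pool.Agent.H988R2.Perc Pool.Agent.H31C Finset

theorem t_HIP : S_HIP := by
  intro a b ω t x y ht hrow hx hxy
  induction hxy with
  | refl =>
    left
    obtain ⟨h1, _⟩ := hx
    unfold col
    omega
  | @tail y z _ hstep ih =>
    obtain ⟨d, rfl, hopn, h1, h2, h3, h4⟩ := hstep
    obtain ⟨p, q⟩ := y
    unfold opn at hopn
    rw [Bool.and_eq_true, Bool.not_eq_true', decide_eq_false_iff_not] at hopn
    obtain ⟨hω, hcut⟩ := hopn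
    cases d with
    | E =>
      have hr := hrow (p, q) Dir.E (Or.inl rfl)
      simp only [Dir.vec, col, tm, edgeOf, Cut, Prod.mk_add_mk] at *
      by_cases hc : p + 1 - (q + 0) ≤ 0
      · exact Or.inl hc
      · right
        by_cases hc2 : p - q ≤ 0
        · have : ¬ (0 ≤ p) := fun h0 => hcut (Or.inl ⟨trivial, by omega, h0⟩)
          omega
        · rcases ih with h | h
          · exact absurd h hc2
          · by_cases he : p + q = t
            · have h5 := (hr he h1 h2).1 (by omega) (by omega)
              rw [h5] at hω
              exact absurd hω (by decide)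
            · omega
    | N =>
      have hr := hrow (p, q) Dir.N (Or.inr rfl)
      simp only [Dir.vec, col, tm, edgeOf, Cut, Prod.mk_add_mk] at *
      by_cases hc : p + 0 - (q + 1) ≤ 0
      · exact Or.inl hc
      · right
        rcases ih with h | h
        · omega
        · by_cases he : p + q = t
          · have h5 := (hr he h1 h2).1 (by omega) (by omega)
            rw [h5] at hω
            exact absurd hω (by decide)
          · omega
    | S =>
      simp only [Dir.vec, col, tm, edgeOf, Cut, Prod.mk_add_mk] at *
      by_cases hc : p + 0 - (q + -1) ≤ 0
      · exact Or.inl hc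
      · right
        by_cases hc2 : p - q ≤ 0
        · have : ¬ (0 ≤ q - 1) := fun h0 => hcut (Or.inr ⟨trivial, by omega, h0⟩)
          omega
        · rcases ih with h | h
          · exact absurd h hc2
          · omega
    | W =>
      simp only [Dir.vec, col, tm, edgeOf, Cut, Prod.mk_add_mk] at *
      rcases ih with h | h
      · left; omega
      · right; omega

end Pool.Agent.H984P
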