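import Pool.Agent.H984P.Defs

set_option autoImplicit false

namespace Pool.Agent.H984P

open Pool.Agent.H988R2.Perc Pool.Agent.H31C Finset

namespace INJAux

/-- the corner before the last turn -/
def pre (ω : Conf) (s : State) : State :=
  if opn ω s.1 s.2 = true then (s.1 + s.2.vec, s.2.opp) else s

theorem step_eq (ω : Conf) (s : State) : step ω s = nx (pre ω s).1 (pre ω s).2 := by
  unfold step pre
  split_ifs <;> rfl

theorem edge_opp (v : ℤ × ℤ) (d : Dir) : edgeOf (v + d.vec) d.opp = edgeOf v d := by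
  cases d <;> simp [edgeOf, Dir.vec, Dir.opp, sub_eq_add_neg]

theorem opn_opp (ω : Conf) (v : ℤ × ℤ) (d : Dir) : opn ω (v + d.vec) d.opp = opn ω v d := by
  unfold opn
  rw [edge_opp]

theorem opp_inj (d d' : Dir) (h : d.opp = d'.opp) : d = d' := by
  cases d <;> cases d' <;> simp_all [Dir.opp]

theorem cw_inj (d d' : Dir) (h : d.cw = d'.cw) : d = d' := by
  cases d <;> cases d' <;> simp_all [Dir.cw]

theorem pre_inj (ω : Conf) (s s' : State) (h : pre ω s = pre ω s') : s = s' := by
  unfold pre at h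
  split_ifs at h with h1 h2 h2
  · have e1 := congrArg Prod.fst h
    have e2 := congrArg Prod.snd h
    have e3 := opp_inj _ _ e2
    simp only at e1
    rw [e3] at e1
    have e4 := add_right_cancel e1
    exact Prod.ext e4 e3
  · exfalso
    apply h2
    rw [← h]
    show opn ω (s.1 + s.2.vec) s.2.opp = true
    rw [opn_opp]; exact h1
  · exfalso
    apply h1
    rw [h]
    show opn ω (s'.1 + s'.2.vec) s'.2.opp = true
    rw [opn_opp]; exact h2
  · exact h

theorem pre_ok (ω : Conf) (s : State) (hs : Valid s) :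
    ¬ ((pre ω s).2 = Dir.E ∧ OnBank (pre ω s).1) ∧
      ¬ ((pre ω s).2 = Dir.S ∧ OnBank (pre ω s).1 ∧ 1 ≤ (pre ω s).1.1) := by
  unfold pre
  split_ifs with h
  · obtain ⟨⟨x, y⟩, d⟩ := s
    unfold opn at h
    simp only [Bool.and_eq_true, Bool.not_eq_true', decide_eq_false_iff_not] at h
    have h2 := h.2
    refine ⟨?_, ?_⟩
    · rintro ⟨hd, hb⟩
      cases d <;> simp [Dir.opp] at hd
      apply h2
      unfold OnBank at hb
      simp only [Dir.vec, Prod.mk_add_mk] at hb
      left
      simp only [edgeOf]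
      refine ⟨trivial, ?_, ?_⟩ <;> omega
    · rintro ⟨hd, hb, hc⟩
      cases d <;> simp [Dir.opp] at hd
      apply h2
      unfold OnBank at hb
      simp only [Dir.vec, Prod.mk_add_mk] at hb hc
      right
      simp only [edgeOf]
      refine ⟨trivial, ?_, ?_⟩ <;> omega
  · refine ⟨fun h => hs.1 ⟨h.2, h.1⟩, fun h => hs.2 ⟨h.2.1, h.2.2, h.1⟩⟩

theorem nx_valid (u : ℤ × ℤ) (d : Dir) (h : ¬ (d = Dir.E ∧ OnBank u)) : Valid (nx u d) := by
  unfold nx Valid
  split_ifs with h1
  · simp
  · refine ⟨?_, ?_⟩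
    · rintro ⟨hb, hd⟩
      cases d <;> simp [Dir.cw] at hd
      exact h1 ⟨rfl, hb⟩
    · rintro ⟨hb, -, hd⟩
      cases d <;> simp [Dir.cw] at hd
      exact h ⟨rfl, hb⟩

theorem step_valid (ω : Conf) (s : State) (hs : Valid s) : Valid (step ω s) := by
  rw [step_eq]
  exact nx_valid _ _ (pre_ok ω s hs).1

theorem path_succ (ω : Conf) (n : ℕ) : path ω (n + 1) = step ω (path ω n) := by
  unfold path
  rw [Function.iterate_succ_apply']

theorem path_valid (ω : Conf) (n : ℕ) : Valid (path ω n) := by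
  induction n with
  | zero =>
    unfold path Valid
    simp
  | succ n ih =>
    rw [path_succ]
    exact step_valid ω _ ih

theorem nx_inj (u u' : ℤ × ℤ) (d d' : Dir)
    (h1 : ¬ (d = Dir.S ∧ OnBank u ∧ 1 ≤ u.1)) (h2 : ¬ (d' = Dir.S ∧ OnBank u' ∧ 1 ≤ u'.1))
    (h : nx u d = nx u' d') : (u, d) = (u', d') := by
  unfold nx at h
  split_ifs at h with h3 h4 h4
  · obtain ⟨x, y⟩ := u
    obtain ⟨x', y'⟩ := u'
    simp only [Prod.mk.injEq, and_true] at h
    obtain ⟨e1, e2⟩ := h
    rw [h3.1, h4.1]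
    simp only [Prod.mk.injEq, and_true]
    constructor <;> omega
  · exfalso
    obtain ⟨x, y⟩ := u
    obtain ⟨x', y'⟩ := u'
    simp only [Prod.mk.injEq] at h
    obtain ⟨⟨e1, e2⟩, e3⟩ := h
    have hb := h3.2
    unfold OnBank at hb
    simp only at hb
    have hd : d' = Dir.S := by
      cases d' <;> simp [Dir.cw] at e3
      rfl
    apply h2
    refine ⟨hd, ⟨?_, ?_⟩, ?_⟩ <;> simp only <;> omega
  · exfalso
    obtain ⟨x, y⟩ := u
    obtain ⟨x', y'⟩ := u'
    simp only [Prod.mk.injEq] at h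
    obtain ⟨⟨e1, e2⟩, e3⟩ := h
    have hb := h4.2
    unfold OnBank at hb
    simp only at hb
    have hd : d = Dir.S := by
      cases d <;> simp [Dir.cw] at e3
      rfl
    apply h1
    refine ⟨hd, ⟨?_, ?_⟩, ?_⟩ <;> simp only <;> omega
  · have e1 := congrArg Prod.fst h
    have e2 := cw_inj _ _ (congrArg Prod.snd h)
    exact Prod.ext e1 e2

theorem step_inj (ω : Conf) (s s' : State) (hs : Valid s) (hs' : Valid s')
    (h : step ω s = step ω s') : s = s' := by
  rw [step_eq, step_eq] at h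
  exact pre_inj ω s s' (nx_inj _ _ _ _ (pre_ok ω s hs).2 (pre_ok ω s' hs').2 h)

theorem not_start (ω : Conf) (s : State) (hs : Valid s) : step ω s ≠ ((0, 0), Dir.S) := by
  intro h
  rw [step_eq] at h
  have h1 := (pre_ok ω s hs).1
  generalize pre ω s = t at h h1
  obtain ⟨⟨x, y⟩, d⟩ := t
  unfold nx at h
  split_ifs at h with h3
  · simp at h
  · simp only [Prod.mk.injEq] at h
    obtain ⟨⟨e1, e2⟩, e3⟩ := h
    apply h1
    refine ⟨?_, ⟨?_, ?_⟩⟩
    · cases d <;> simp [Dir.cw] at e3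
      rfl
    · simp only; omega
    · simp only; omega

theorem back (ω : Conf) (k : ℕ) : ∀ i : ℕ, path ω i = path ω (i + k) → path ω 0 = path ω k
  | 0, h => by rwa [zero_add] at h
  | i + 1, h => by
    apply back ω k i
    have e : i + 1 + k = (i + k) + 1 := by omega
    rw [e, path_succ, path_succ] at h
    exact step_inj ω _ _ (path_valid ω i) (path_valid ω (i + k)) h

theorem ne_of_lt (ω : Conf) (i k : ℕ) : path ω i ≠ path ω (i + (k + 1)) := by
  intro h
  have h2 := back ω (k + 1) i h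
  rw [path_succ] at h2
  exact not_start ω _ (path_valid ω k) h2.symm

end INJAux

theorem t_INJ : S_INJ := by
  intro ω i j h
  rcases lt_trichotomy i j with h1 | h1 | h1
  · exfalso
    obtain ⟨k, rfl⟩ := Nat.exists_eq_add_of_lt h1
    exact INJAux.ne_of_lt ω i k h
  · exact h1
  · exfalso
    obtain ⟨k, rfl⟩ := Nat.exists_eq_add_of_lt h1
    exact INJAux.ne_of_lt ω j k h.symm

end Pool.Agent.H984P
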