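import Pool.Agent.H984P.Defs

/-!
# INV1: the vertices of the path are joined to the left bank
-/

set_option autoImplicit false

namespace Pool.Agent.H984P

open Pool.Agent.H988R2.Perc Pool.Agent.H31C Finset

namespace INV1Aux

theorem nx_bank {a b : ℕ} {ω : Conf} {u : ℤ × ℤ} {d : Dir}
    (h : ∃ x, OnBank x ∧ Relation.ReflTransGen (SAdj a b ω) x u) :
    ∃ x, OnBank x ∧ Relation.ReflTransGen (SAdj a b ω) x (nx u d).1 := by
  unfold nx
  split_ifs with hd
  · refine ⟨(u.1 + 1, u.2 + 1), ?_, Relation.ReflTransGen.refl⟩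
    obtain ⟨_, h1, h2⟩ := hd
    unfold OnBank
    constructor
    · change u.1 + 1 = u.2 + 1
      omega
    · change 0 ≤ u.1 + 1
      omega
  · exact h

theorem adj {a b : ℕ} {ω : Conf} {v : ℤ × ℤ} {d : Dir} (ho : opn ω v d = true)
    (h1 : col v ≤ (b : ℤ)) (h2 : -(a : ℤ) < col (face (v, d))) : SAdj a b ω v (v + d.vec) := by
  refine ⟨d, rfl, ho, ?_⟩
  obtain ⟨p, q⟩ := v
  cases d <;> simp only [col, face, Dir.vec, Prod.fst_add, Prod.snd_add] at h1 h2 ⊢ <;>
    refine ⟨?_, ?_, ?_, ?_⟩ <;> omega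

end INV1Aux

theorem t_INV1 : S_INV1 := by
  intro a b ω n ha
  induction n with
  | zero =>
    intro _
    refine ⟨(0, 0), ⟨rfl, le_rfl⟩, ?_⟩
    exact Relation.ReflTransGen.refl
  | succ n ih =>
    intro hin
    obtain ⟨x, hx, hxv⟩ := ih fun m hm => hin m (Nat.lt_succ_of_lt hm)
    obtain ⟨h1, h2⟩ := hin n (Nat.lt_succ_self n)
    have hstep : path ω (n + 1) = step ω (path ω n) := Function.iterate_succ_apply' _ _ _
    rw [hstep]
    generalize path ω n = s at h1 h2 hxv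
    obtain ⟨v, d⟩ := s
    unfold step
    split_ifs with ho
    · exact INV1Aux.nx_bank ⟨x, hx, hxv.tail (INV1Aux.adj ho h1 h2)⟩
    · exact INV1Aux.nx_bank ⟨x, hx, hxv⟩

end Pool.Agent.H984P
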