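import Pool.Agent.H984P.Defs

set_option autoImplicit false

namespace Pool.Agent.H984P

open Pool.Agent.H988R2.Perc Pool.Agent.H31C Finset

namespace INV2Aux

/-- the second part of the invariant -/
def Ch (a b : ℕ) (ω : Conf) (s : State) : Prop :=
  Special s ∨ ∃ f, OnRight f ∧ Relation.ReflTransGen (DAdj a b ω) f (face s)

theorem ch_same {a b : ℕ} {ω : Conf} {s s' : State} (h : Ch a b ω s) (hs : ¬ Special s)
    (hf : face s' = face s) : Ch a b ω s' := by
  rcases h with h | ⟨f, h1, h2⟩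
  · exact absurd h hs
  · exact Or.inr ⟨f, h1, by rw [hf]; exact h2⟩

theorem ch_step {a b : ℕ} {ω : Conf} {s s' : State} (h : Ch a b ω s) (hs : ¬ Special s)
    (hf : DAdj a b ω (face s) (face s')) : Ch a b ω s' := by
  rcases h with h | ⟨f, h1, h2⟩
  · exact absurd h hs
  · exact Or.inr ⟨f, h1, h2.tail hf⟩

theorem opn_true {ω : Conf} {v : ℤ × ℤ} {d : Dir} (h1 : ω (edgeOf v d) = true)
    (h2 : ¬ Cut (edgeOf v d)) : opn ω v d = true := by
  unfold opn; simp [h1, h2]

theorem opn_false {ω : Conf} {v : ℤ × ℤ} {d : Dir} (h1 : ω (edgeOf v d) = false) :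
    ¬ opn ω v d = true := by
  unfold opn; simp [h1]

theorem opn_cut {ω : Conf} {v : ℤ × ℤ} {d : Dir} (h2 : Cut (edgeOf v d)) :
    ¬ opn ω v d = true := by
  unfold opn; simp [h2]

theorem dopn_true {ω : Conf} {f : ℤ × ℤ} {d : Dir} (h1 : ω (dedge f d) = false)
    (h2 : ¬ Cut (dedge f d)) : dopn ω f d = true := by
  unfold dopn; simp [h1, h2]

theorem stepE {a b : ℕ} {ω : Conf} {p q : ℤ} (hV : Valid ((p, q), Dir.E))
    (hc : col (p, q) ≤ (b : ℤ)) (hf : -(a : ℤ) < col (face ((p, q), Dir.E)))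
    (h : Ch a b ω ((p, q), Dir.E)) :
    Valid (step ω ((p, q), Dir.E)) ∧ Ch a b ω (step ω ((p, q), Dir.E)) := by
  have hnb : ¬ OnBank (p, q) := fun hb => hV.1 ⟨hb, rfl⟩
  have hnc : ¬ Cut (edgeOf (p, q) Dir.E) := by
    intro hcut
    apply hnb
    simp only [edgeOf, Cut] at hcut
    rcases hcut with ⟨-, h1, h2⟩ | ⟨h1, -⟩
    · exact ⟨h1, h2⟩
    · simp at h1
  have hns : ¬ Special ((p, q), Dir.E) := by
    rintro ⟨-, -, h1⟩; simp at h1
  simp only [col, face] at hc hf
  rcases Bool.eq_false_or_eq_true (ω (edgeOf (p, q) Dir.E)) with hω | hω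
  · have e : step ω ((p, q), Dir.E) = ((p + 1, q), Dir.N) := by
      unfold step
      rw [if_pos (opn_true hω hnc)]
      simp [nx, Dir.vec, Dir.opp, Dir.cw]
    rw [e]
    refine ⟨⟨by simp, by simp⟩, ch_same h hns ?_⟩
    simp [face]
  · have e : step ω ((p, q), Dir.E) = ((p, q), Dir.S) := by
      unfold step
      rw [if_neg (opn_false hω)]
      simp [nx, Dir.cw]
    rw [e]
    refine ⟨⟨by simp, fun h1 => hnb h1.1⟩, ch_step h hns ⟨Dir.S, ?_, ?_, ?_⟩⟩
    · simp [face, Dir.vec, sub_eq_add_neg]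
    · apply dopn_true
      · simpa [dedge, face, edgeOf] using hω
      · simpa [dedge, face, edgeOf] using hnc
    · simp only [face, col]
      refine ⟨?_, ?_, ?_, ?_⟩ <;> omega

theorem stepS {a b : ℕ} {ω : Conf} {p q : ℤ} (hV : Valid ((p, q), Dir.S))
    (hc : col (p, q) ≤ (b : ℤ)) (hf : -(a : ℤ) < col (face ((p, q), Dir.S)))
    (h : Ch a b ω ((p, q), Dir.S)) :
    Valid (step ω ((p, q), Dir.S)) ∧ Ch a b ω (step ω ((p, q), Dir.S)) := by
  have hnc : ¬ Cut (edgeOf (p, q) Dir.S) := by
    intro hcut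
    simp only [edgeOf, Cut] at hcut
    rcases hcut with ⟨h1, -⟩ | ⟨-, h1, h2⟩
    · simp at h1
    · exact hV.2 ⟨⟨by show p = q; omega, by show 0 ≤ p; omega⟩, by show 1 ≤ p; omega, rfl⟩
  have hns : ¬ Special ((p, q), Dir.S) := by
    rintro ⟨-, -, h1⟩; simp at h1
  simp only [col, face] at hc hf
  rcases Bool.eq_false_or_eq_true (ω (edgeOf (p, q) Dir.S)) with hω | hω
  · by_cases hb : OnBank (p, q - 1)
    · have e : step ω ((p, q), Dir.S) = ((p + 1, q), Dir.W) := by
        unfold step
        rw [if_pos (opn_true hω hnc)]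
        have e1 : ((p, q) : ℤ × ℤ) + Dir.S.vec = (p, q - 1) := by
          simp [Dir.vec, sub_eq_add_neg]
        simp only
        rw [e1]
        unfold nx
        rw [if_pos ⟨rfl, hb⟩]
        simp
      rw [e]
      refine ⟨⟨by simp, by simp⟩, ch_same h hns ?_⟩
      simp [face]
    · have e : step ω ((p, q), Dir.S) = ((p, q - 1), Dir.E) := by
        unfold step
        rw [if_pos (opn_true hω hnc)]
        have e1 : ((p, q) : ℤ × ℤ) + Dir.S.vec = (p, q - 1) := by
          simp [Dir.vec, sub_eq_add_neg]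
        simp only
        rw [e1]
        unfold nx
        rw [if_neg (fun h1 => hb h1.2)]
        rfl
      rw [e]
      refine ⟨⟨fun h1 => hb h1.1, by simp⟩, ch_same h hns ?_⟩
      simp [face]
  · have e : step ω ((p, q), Dir.S) = ((p, q), Dir.W) := by
      unfold step
      rw [if_neg (opn_false hω)]
      simp [nx, Dir.cw]
    rw [e]
    refine ⟨⟨by simp, by simp⟩, ch_step h hns ⟨Dir.W, ?_, ?_, ?_⟩⟩
    · simp [face, Dir.vec, sub_eq_add_neg]
    · apply dopn_true
      · simpa [dedge, face, edgeOf] using hω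
      · simpa [dedge, face, edgeOf] using hnc
    · simp only [face, col]
      refine ⟨?_, ?_, ?_, ?_⟩ <;> omega

theorem stepW {a b : ℕ} {ω : Conf} {p q : ℤ}
    (hc : col (p, q) ≤ (b : ℤ)) (hf : -(a : ℤ) < col (face ((p, q), Dir.W)))
    (h : Ch a b ω ((p, q), Dir.W)) :
    Valid (step ω ((p, q), Dir.W)) ∧ Ch a b ω (step ω ((p, q), Dir.W)) := by
  have hns : ¬ Special ((p, q), Dir.W) := by
    rintro ⟨-, -, h1⟩; simp at h1
  simp only [col, face] at hc hf
  by_cases hcut : Cut (edgeOf (p, q) Dir.W)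
  · have e : step ω ((p, q), Dir.W) = ((p, q), Dir.N) := by
      unfold step
      rw [if_neg (opn_cut hcut)]
      simp [nx, Dir.cw]
    rw [e]
    refine ⟨⟨by simp, by simp⟩, Or.inl ?_⟩
    simp only [edgeOf, Cut] at hcut
    rcases hcut with ⟨-, h1, h2⟩ | ⟨h1, -⟩
    · exact ⟨by show p = q + 1; omega, by show 0 ≤ q; omega, rfl⟩
    · simp at h1
  · rcases Bool.eq_false_or_eq_true (ω (edgeOf (p, q) Dir.W)) with hω | hω
    · have e : step ω ((p, q), Dir.W) = ((p - 1, q), Dir.S) := by
        unfold step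
        rw [if_pos (opn_true hω hcut)]
        simp [nx, Dir.vec, Dir.opp, Dir.cw, sub_eq_add_neg]
      rw [e]
      refine ⟨⟨by simp, ?_⟩, ch_same h hns ?_⟩
      · rintro ⟨⟨h1, h2⟩, -, -⟩
        apply hcut
        left
        exact ⟨rfl, h1, h2⟩
      · simp [face]
    · have e : step ω ((p, q), Dir.W) = ((p, q), Dir.N) := by
        unfold step
        rw [if_neg (opn_false hω)]
        simp [nx, Dir.cw]
      rw [e]
      refine ⟨⟨by simp, by simp⟩, ch_step h hns ⟨Dir.N, ?_, ?_, ?_⟩⟩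
      · simp [face, Dir.vec]
      · apply dopn_true
        · simpa [dedge, face, edgeOf] using hω
        · simpa [dedge, face, edgeOf] using hcut
      · simp only [face, col]
        refine ⟨?_, ?_, ?_, ?_⟩ <;> omega

theorem stepN {a b : ℕ} {ω : Conf} {p q : ℤ}
    (hc : col (p, q) ≤ (b : ℤ)) (hf : -(a : ℤ) < col (face ((p, q), Dir.N)))
    (h : Ch a b ω ((p, q), Dir.N)) :
    Valid (step ω ((p, q), Dir.N)) ∧ Ch a b ω (step ω ((p, q), Dir.N)) := by
  simp only [col, face] at hc hf
  by_cases hcut : Cut (edgeOf (p, q) Dir.N)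
  · have hpq : p = q + 1 ∧ 0 ≤ q := by
      simp only [edgeOf, Cut] at hcut
      rcases hcut with ⟨h1, -⟩ | ⟨-, h1, h2⟩
      · simp at h1
      · exact ⟨h1, h2⟩
    have hnb : ¬ OnBank (p, q) := by
      rintro ⟨h1, -⟩
      have h1 : p = q := h1
      omega
    have e : step ω ((p, q), Dir.N) = ((p, q), Dir.E) := by
      unfold step
      rw [if_neg (opn_cut hcut)]
      simp only
      unfold nx
      rw [if_neg (fun h1 => hnb h1.2)]
      rfl
    rw [e]
    refine ⟨⟨fun h1 => hnb h1.1, by simp⟩, Or.inr ⟨(p, q), ⟨hpq.1, ?_⟩, ?_⟩⟩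
    · show 0 ≤ p
      omega
    · exact Relation.ReflTransGen.refl
  · have hns : ¬ Special ((p, q), Dir.N) := by
      rintro ⟨h1, h2, -⟩
      apply hcut
      right
      exact ⟨rfl, h1, h2⟩
    rcases Bool.eq_false_or_eq_true (ω (edgeOf (p, q) Dir.N)) with hω | hω
    · have e : step ω ((p, q), Dir.N) = ((p, q + 1), Dir.W) := by
        unfold step
        rw [if_pos (opn_true hω hcut)]
        simp [nx, Dir.vec, Dir.opp, Dir.cw]
      rw [e]
      refine ⟨⟨by simp, by simp⟩, ch_same h hns ?_⟩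
      simp [face]
    · have hD : DAdj a b ω (p - 1, q) (p, q) := by
        refine ⟨Dir.E, ?_, ?_, ?_⟩
        · simp [Dir.vec]
        · apply dopn_true
          · simpa [dedge, edgeOf] using hω
          · simpa [dedge, edgeOf] using hcut
        · simp only [col]
          refine ⟨?_, ?_, ?_, ?_⟩ <;> omega
      by_cases hb : OnBank (p, q)
      · have e : step ω ((p, q), Dir.N) = ((p + 1, q + 1), Dir.W) := by
          unfold step
          rw [if_neg (opn_false hω)]
          simp only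
          unfold nx
          rw [if_pos ⟨rfl, hb⟩]
        rw [e]
        refine ⟨⟨by simp, by simp⟩, ch_step h hns ?_⟩
        simpa [face] using hD
      · have e : step ω ((p, q), Dir.N) = ((p, q), Dir.E) := by
          unfold step
          rw [if_neg (opn_false hω)]
          simp only
          unfold nx
          rw [if_neg (fun h1 => hb h1.2)]
          rfl
        rw [e]
        refine ⟨⟨fun h1 => hb h1.1, by simp⟩, ch_step h hns ?_⟩
        simpa [face] using hD

end INV2Aux

open INV2Aux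

theorem t_INV2 : S_INV2 := by
  intro a b ω n ha
  induction n with
  | zero =>
    intro _
    have e : path ω 0 = ((0, 0), Dir.S) := rfl
    rw [e]
    refine ⟨⟨by simp, by simp⟩, Or.inr ⟨(0, -1), ⟨by simp, by simp⟩, ?_⟩⟩
    have e2 : face (((0, 0) : ℤ × ℤ), Dir.S) = (0, -1) := by simp [face]
    rw [e2]
  | succ n ih =>
    intro hIn
    have hIn' : In a b ω n := fun m hm => hIn m (by omega)
    obtain ⟨h1, h2⟩ := hIn n (by omega)
    have h3 := ih hIn'
    have e : path ω (n + 1) = step ω (path ω n) := by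
      unfold path
      rw [Function.iterate_succ_apply']
    rw [e]
    clear hIn hIn' ih e
    generalize path ω n = s at h1 h2 h3 ⊢
    obtain ⟨⟨p, q⟩, d⟩ := s
    cases d with
    | E => exact stepE h3.1 h1 h2 h3.2
    | S => exact stepS h3.1 h1 h2 h3.2
    | W => exact stepW h1 h2 h3.2
    | N => exact stepN h1 h2 h3.2

end Pool.Agent.H984P
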