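import Pool.Agent.H984P.Defs

set_option autoImplicit false

/-!
# LIM: the limit law, for all sequences
-/

namespace Pool.Agent.H984P.LIMAux

open Pool.Agent.H988R2.Perc Pool.Agent.H31C Finset Filter Topology

/-- largest odd number below (at least one) -/
def lo (n : ℕ) : ℕ := 2 * ((n - 1) / 2) + 1

/-- smallest odd number above -/
def up (n : ℕ) : ℕ := 2 * (n / 2) + 1

theorem lo_odd (n : ℕ) : Odd (lo n) := ⟨(n - 1) / 2, rfl⟩

theorem up_odd (n : ℕ) : Odd (up n) := ⟨n / 2, rfl⟩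

theorem lo_le {n : ℕ} (h : 1 ≤ n) : lo n ≤ n := by unfold lo; omega

theorem le_up (n : ℕ) : n ≤ up n := by unfold up; omega

theorem lo_abs (n : ℕ) : |((lo n : ℕ) : ℝ) - n| ≤ 1 := by
  have h1 : lo n ≤ n + 1 := by unfold lo; omega
  have h2 : n ≤ lo n + 1 := by unfold lo; omega
  have h1' : ((lo n : ℕ) : ℝ) ≤ n + 1 := by exact_mod_cast h1
  have h2' : (n : ℝ) ≤ (lo n : ℕ) + 1 := by exact_mod_cast h2
  rw [abs_le]
  constructor <;> linarith

theorem up_abs (n : ℕ) : |((up n : ℕ) : ℝ) - n| ≤ 1 := by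
  have h1 : up n ≤ n + 1 := by unfold up; omega
  have h2 : n ≤ up n + 1 := by unfold up; omega
  have h1' : ((up n : ℕ) : ℝ) ≤ n + 1 := by exact_mod_cast h1
  have h2' : (n : ℝ) ≤ (up n : ℕ) + 1 := by exact_mod_cast h2
  rw [abs_le]
  constructor <;> linarith

theorem ratio {u v u' v' : ℕ → ℝ} {x : ℝ} (hs : Tendsto (fun n => u n + v n) atTop atTop)
    (hr : Tendsto (fun n => u n / (u n + v n)) atTop (𝓝 x))
    (h1 : ∀ n, |u' n - u n| ≤ 1) (h2 : ∀ n, |v' n - v n| ≤ 1) :
    Tendsto (fun n => u' n + v' n) atTop atTop ∧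
      Tendsto (fun n => u' n / (u' n + v' n)) atTop (𝓝 x) := by
  have e1 : Tendsto (fun n => u' n + v' n) atTop atTop := by
    have h3 : Tendsto (fun n => (u n + v n) + (-2)) atTop atTop :=
      tendsto_atTop_add_const_right _ _ hs
    refine tendsto_atTop_mono (fun n => ?_) h3
    have a1 := abs_le.1 (h1 n)
    have a2 := abs_le.1 (h2 n)
    linarith [a1.1, a2.1]
  refine ⟨e1, ?_⟩
  have hinv : Tendsto (fun n => (u n + v n)⁻¹) atTop (𝓝 0) := tendsto_inv_atTop_zero.comp hs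
  have k1 : Tendsto (fun n => (u' n - u n) * (u n + v n)⁻¹) atTop (𝓝 0) := by
    refine squeeze_zero_norm' (a := fun n => (u n + v n)⁻¹) ?_ hinv
    filter_upwards [hs.eventually_gt_atTop 0] with n hn
    rw [norm_mul, Real.norm_eq_abs, Real.norm_eq_abs, abs_of_pos (inv_pos.2 hn)]
    have := mul_le_mul_of_nonneg_right (h1 n) (inv_pos.2 hn).le
    linarith
  have k2 : Tendsto (fun n => (v' n - v n) * (u n + v n)⁻¹) atTop (𝓝 0) := by
    refine squeeze_zero_norm' (a := fun n => (u n + v n)⁻¹) ?_ hinv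
    filter_upwards [hs.eventually_gt_atTop 0] with n hn
    rw [norm_mul, Real.norm_eq_abs, Real.norm_eq_abs, abs_of_pos (inv_pos.2 hn)]
    have := mul_le_mul_of_nonneg_right (h2 n) (inv_pos.2 hn).le
    linarith
  have k3 : Tendsto (fun n => (u n / (u n + v n) + (u' n - u n) * (u n + v n)⁻¹) /
      (1 + (u' n - u n) * (u n + v n)⁻¹ + (v' n - v n) * (u n + v n)⁻¹)) atTop
      (𝓝 ((x + 0) / (1 + 0 + 0))) :=
    (hr.add k1).div (((tendsto_const_nhds).add k1).add k2) (by norm_num)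
  have k4 : (x + 0) / (1 + 0 + 0) = x := by ring
  rw [k4] at k3
  refine k3.congr' ?_
  filter_upwards [hs.eventually_gt_atTop 0, e1.eventually_gt_atTop 0] with n hn hn'
  have hd : 1 + (u' n - u n) * (u n + v n)⁻¹ + (v' n - v n) * (u n + v n)⁻¹ =
      (u' n + v' n) / (u n + v n) := by
    field_simp
    ring
  have hnum : u n / (u n + v n) + (u' n - u n) * (u n + v n)⁻¹ = u' n / (u n + v n) := by
    field_simp
    ring
  rw [hd, hnum]
  field_simp

end Pool.Agent.H984P.LIMAux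

namespace Pool.Agent.H984P

open Pool.Agent.H988R2.Perc Pool.Agent.H31C Finset Filter Topology LIMAux

/-- the limit law for a general monotone family of events -/
theorem lim_gen (R : ℕ → ℕ → Set Conf)
    (hex : ∀ a b, Odd a → Odd b → perc.real (R a b) = ∑ k ∈ range (a + 1), bw (a + b + 1) k)
    (hmon : ∀ a b a' b' : ℕ, a ≤ a' → b' ≤ b → R a b ⊆ R a' b') (h3 : S_D)
    (a b : ℕ → ℕ) (x : ℝ) (hx0 : 0 < x) (hx1 : x < 1)
    (hs : Tendsto (fun n => (a n : ℝ) + b n) atTop atTop)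
    (hr : Tendsto (fun n => (a n : ℝ) / (a n + b n)) atTop (𝓝 x)) :
    Tendsto (fun n => perc.real (R (a n) (b n))) atTop
      (𝓝 ((∫ t in (0:ℝ)..x, (t*(1-t))^(-(2:ℝ)/3)) / ∫ t in (0:ℝ)..1, (t*(1-t))^(-(2:ℝ)/3))) := by
  have hx : x ∈ Set.Icc (0 : ℝ) 1 := ⟨hx0.le, hx1.le⟩
  -- eventually both are at least one
  have ha : ∀ᶠ n in atTop, 1 ≤ a n := by
    filter_upwards [hr.eventually (lt_mem_nhds hx0)] with n hn
    by_contra hcon
    have : a n = 0 := by omega
    rw [this] at hn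
    simp at hn
  have hb : ∀ᶠ n in atTop, 1 ≤ b n := by
    filter_upwards [hr.eventually (gt_mem_nhds hx1), ha] with n hn han
    by_contra hcon
    have h0 : b n = 0 := by omega
    rw [h0] at hn
    have h4 : (0 : ℝ) < a n := by exact_mod_cast han
    simp only [Nat.cast_zero, add_zero] at hn
    rw [div_self h4.ne'] at hn
    exact lt_irrefl _ hn
  obtain ⟨s1, r1⟩ := ratio hs hr (fun n => lo_abs (a n)) (fun n => up_abs (b n))
  obtain ⟨s2, r2⟩ := ratio hs hr (fun n => up_abs (a n)) (fun n => lo_abs (b n))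
  have l1 := h3 (fun n => lo (a n)) (fun n => up (b n)) x hx s1 r1
  have l2 := h3 (fun n => up (a n)) (fun n => lo (b n)) x hx s2 r2
  refine tendsto_of_tendsto_of_tendsto_of_le_of_le' l1 l2 ?_ ?_
  · filter_upwards [ha] with n hn
    rw [← hex (lo (a n)) (up (b n)) (lo_odd _) (up_odd _)]
    exact MeasureTheory.measureReal_mono (hmon _ _ _ _ (lo_le hn) (le_up _))
  · filter_upwards [hb] with n hn
    rw [← hex (up (a n)) (lo (b n)) (up_odd _) (lo_odd _)]
    exact MeasureTheory.measureReal_mono (hmon _ _ _ _ (le_up _) (lo_le hn))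

theorem t_LIM (h1 : S_EX) (h2 : S_MON) (h3 : S_D) : S_LIM := by
  intro a b x hx0 hx1 hs hr
  exact lim_gen RightFirst (fun a b ha hb => (h1 a b ha hb).1) h2 h3 a b x hx0 hx1 hs hr

end Pool.Agent.H984P
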