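import Pool.Agent.H984P.Defs

set_option autoImplicit false

/-! LOW: a closed row below the tip cannot be crossed. -/

namespace Pool.Agent.H984P

open Pool.Agent.H988R2.Perc Pool.Agent.H31C Finset

theorem LOWAux.opn_true {ω : Conf} {v : ℤ × ℤ} {d : Dir} (h : opn ω v d = true) :
    ω (edgeOf v d) = true := by
  unfold opn at h
  rw [Bool.and_eq_true] at h
  exact h.1

theorem t_LOW : S_LOW := by
  intro a b ω t x y ht hrow hx hr
  induction hr with
  | refl =>
    obtain ⟨h1, h2⟩ := hx
    unfold tm
    omega
  | @tail y z _ hs ih =>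
    obtain ⟨d, hz, ho, h1, h2, h3, h4⟩ := hs
    have ho' := LOWAux.opn_true ho
    by_contra hcon
    obtain ⟨y1, y2⟩ := y
    obtain ⟨z1, z2⟩ := z
    simp only [tm] at ih hcon
    cases d with
    | E =>
      simp only [Dir.vec, Prod.mk_add_mk, Prod.mk.injEq] at hz
      omega
    | N =>
      simp only [Dir.vec, Prod.mk_add_mk, Prod.mk.injEq] at hz
      omega
    | W =>
      simp only [Dir.vec, Prod.mk_add_mk, Prod.mk.injEq] at hz
      obtain ⟨hz1, hz2⟩ := hz
      have hr := hrow (z1, z2) Dir.E (Or.inl rfl) (by simp only [tm]; omega) h3 h4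
      have he : edgeOf (z1, z2) Dir.E = edgeOf (y1, y2) Dir.W := by
        simp only [edgeOf, Prod.mk.injEq, and_true]
        omega
      rw [he, ho'] at hr
      exact absurd hr (by simp)
    | S =>
      simp only [Dir.vec, Prod.mk_add_mk, Prod.mk.injEq] at hz
      obtain ⟨hz1, hz2⟩ := hz
      have hr := hrow (z1, z2) Dir.N (Or.inr rfl) (by simp only [tm]; omega) h3 h4
      have he : edgeOf (z1, z2) Dir.N = edgeOf (y1, y2) Dir.S := by
        simp only [edgeOf, Prod.mk.injEq, and_true]
        omega
      rw [he, ho'] at hr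
      exact absurd hr (by simp)

end Pool.Agent.H984P
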