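import Pool.Agent.H984P.Defs

set_option autoImplicit false

namespace Pool.Agent.H984P

open Pool.Agent.H988R2.Perc Pool.Agent.H31C Finset

namespace ROWSAux

/-- the edges of the row `t` -/
noncomputable def row (a b : ℕ) (t : ℤ) : Finset Edge :=
  (Icc ((t - a) / 2) ((t + b + 1) / 2) ×ˢ (univ : Finset Bool)).image
    (fun x => ((x.1, t - x.1, x.2) : Edge))

theorem mem_row_sum {a b : ℕ} {t : ℤ} {e : Edge} (h : e ∈ row a b t) : e.1 + e.2.1 = t := by
  unfold row at h
  rw [Finset.mem_image] at h
  obtain ⟨x, _, rfl⟩ := h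
  simp

theorem disj {a b : ℕ} {t t' : ℤ} (h : t ≠ t') : Disjoint (row a b t) (row a b t') := by
  rw [Finset.disjoint_left]
  intro e h1 h2
  exact h ((mem_row_sum h1).symm.trans (mem_row_sum h2))

theorem card_row (a b : ℕ) (t : ℤ) : (row a b t).card ≤ 2 * (a + b + 3) := by
  unfold row
  refine Finset.card_image_le.trans ?_
  rw [Finset.card_product, Int.card_Icc, Finset.card_univ, Fintype.card_bool]
  omega

theorem mem_row {a b : ℕ} {v : ℤ × ℤ} (h1 : -(a : ℤ) ≤ col v) (h2 : col v ≤ (b : ℤ) + 1)
    (b' : Bool) : ((v.1, v.2, b') : Edge) ∈ row a b (tm v) := by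
  unfold row
  rw [Finset.mem_image]
  unfold col at h1 h2
  refine ⟨(v.1, b'), ?_, ?_⟩
  · rw [Finset.mem_product, Finset.mem_Icc]
    unfold tm
    refine ⟨⟨?_, ?_⟩, Finset.mem_univ _⟩
    · simp only; omega
    · simp only; omega
  · unfold tm
    simp

end ROWSAux

open ROWSAux in
theorem t_ROWS (h : S_BC) : S_ROWS := by
  intro a b
  have h1 := h (fun i => row a b (-1 - (i : ℤ))) (fun _ => false) (2 * (a + b + 3))
    (fun i j hij => disj (by omega)) (fun i => card_row _ _ _)
  have h2 := h (fun i => row a b (i : ℤ))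
    (fun e => if 1 ≤ e.1 - e.2.1 ∧ 1 ≤ (if e.2.2 then e.1 - e.2.1 - 1 else e.1 - e.2.1 + 1)
      then false else true) (2 * (a + b + 3))
    (fun i j hij => disj (by omega)) (fun i => card_row _ _ _)
  filter_upwards [h1, h2] with ω hω1 hω2
  obtain ⟨i, hi⟩ := hω1
  obtain ⟨j, hj⟩ := hω2
  refine ⟨⟨-1 - (i : ℤ), by omega, ?_⟩, ⟨(j : ℤ), by omega, ?_⟩⟩
  · intro v d hd ht hc1 hc2
    rcases hd with rfl | rfl
    · have := mem_row hc1 hc2 false
      rw [ht] at this
      exact hi _ this
    · have := mem_row hc1 hc2 true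
      rw [ht] at this
      exact hi _ this
  · intro v d hd ht hc1 hc2
    rcases hd with rfl | rfl
    · have hm := mem_row hc1 hc2 false
      rw [ht] at hm
      have hv := hj _ hm
      simp only [Bool.false_eq_true, if_false] at hv
      unfold col at *
      constructor
      · intro g1 g2
        show ω (v.1, v.2, false) = false
        rw [hv, if_pos]
        simp only [Dir.vec, Prod.fst_add, Prod.snd_add] at g2
        omega
      · intro g1 g2
        show ω (v.1, v.2, false) = true
        rw [hv, if_neg]
        omega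
    · have hm := mem_row hc1 hc2 true
      rw [ht] at hm
      have hv := hj _ hm
      simp only [if_true] at hv
      unfold col at *
      constructor
      · intro g1 g2
        show ω (v.1, v.2, true) = false
        rw [hv, if_pos]
        simp only [Dir.vec, Prod.fst_add, Prod.snd_add] at g2
        omega
      · intro g1 g2
        show ω (v.1, v.2, true) = true
        rw [hv, if_neg]
        omega

end Pool.Agent.H984P
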