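import Pool.Agent.H984P.Defs

set_option autoImplicit false

/-!
# SUM: the two beta-binomial sums add up to one
-/

namespace Pool.Agent.H984P.SUMAux

open Pool.Agent.H988R2.Perc Pool.Agent.H31C Finset

theorem ris_succ (s : ℝ) (k : ℕ) : ris s (k + 1) = ris s k * (s + k) := by
  unfold ris
  rw [prod_range_succ]

theorem ris_pos {s : ℝ} (hs : 0 < s) (k : ℕ) : 0 < ris s k := by
  unfold ris
  exact prod_pos fun i _ => by positivity

theorem vander (x y : ℝ) (L : ℕ) :
    ∑ ij ∈ antidiagonal L, (L.choose ij.1 : ℝ) * (ris x ij.1 * ris y ij.2) = ris (x + y) L := by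
  induction L with
  | zero => simp [ris]
  | succ n ih =>
    rw [Finset.sum_antidiagonal_choose_succ_mul (fun i j => ris x i * ris y j) n,
      ← sum_add_distrib, ris_succ, ← ih, sum_mul]
    refine sum_congr rfl fun ij hij => ?_
    have h := mem_antidiagonal.1 hij
    have hc : n.choose ij.2 = n.choose ij.1 := by
      rw [← h]
      exact (Nat.choose_symm_add).symm
    rw [hc, ris_succ, ris_succ]
    have h' : (ij.1 : ℝ) + ij.2 = n := by exact_mod_cast h
    rw [← h']
    ring

theorem bw_symm {L k : ℕ} (hk : k ≤ L) : bw L (L - k) = bw L k := by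
  unfold bw
  rw [Nat.choose_symm hk, Nat.sub_sub_self hk]
  ring

theorem sum_bw (L : ℕ) : ∑ k ∈ range (L + 1), bw L k = 1 := by
  have h := vander (1 / 3) (1 / 3) L
  rw [Nat.sum_antidiagonal_eq_sum_range_succ
    (fun i j => (L.choose i : ℝ) * (ris (1 / 3) i * ris (1 / 3) j))] at h
  have h2 : (1 / 3 : ℝ) + 1 / 3 = 2 / 3 := by norm_num
  rw [h2] at h
  have hp : 0 < ris (2 / 3) L := ris_pos (by norm_num) L
  have h3 : ∑ k ∈ range (L + 1), bw L k =
      (∑ k ∈ range (L + 1), (L.choose k : ℝ) * (ris (1 / 3) k * ris (1 / 3) (L - k))) /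
        ris (2 / 3) L := by
    rw [sum_div]
    refine sum_congr rfl fun k _ => ?_
    unfold bw
    ring
  rw [h3]
  have h4 : ∑ k ∈ range (L + 1), (L.choose k : ℝ) * (ris (1 / 3) k * ris (1 / 3) (L - k)) =
      ris (2 / 3) L := h
  rw [h4, div_self hp.ne']

end Pool.Agent.H984P.SUMAux

namespace Pool.Agent.H984P

open Pool.Agent.H988R2.Perc Pool.Agent.H31C Finset SUMAux

theorem t_SUM : S_SUM := by
  intro a b
  have h1 := sum_bw (a + b + 1)
  have h2 : a + b + 1 + 1 = (a + 1) + (b + 1) := by ring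
  rw [h2, sum_range_add] at h1
  rw [← h1]
  congr 1
  rw [← sum_range_reflect]
  refine sum_congr rfl fun i hi => ?_
  have hi' : i < b + 1 := mem_range.1 hi
  have h3 : b + 1 - 1 - i = (a + b + 1) - (a + 1 + i) := by omega
  rw [h3, bw_symm (by omega)]

end Pool.Agent.H984P
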