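import Pool.Agent.H984P.Defs

set_option autoImplicit false

namespace Pool.Agent.H984P

open Pool.Agent.H988R2.Perc Pool.Agent.H31C Finset MeasureTheory

namespace TRAux

/-- shift of the vertices -/
def T (k : ℤ) (x : ℤ × ℤ) : ℤ × ℤ := (x.1 + (k + 1), x.2 + -k)

/-- the inverse shift -/
def T' (k : ℤ) (x : ℤ × ℤ) : ℤ × ℤ := (x.1 - (k + 1), x.2 + k)

/-- shift of the edges -/
def eT (k : ℤ) : Edge ≃ Edge where
  toFun e := (e.1 - (k + 1), e.2.1 + k, e.2.2)
  invFun e := (e.1 + (k + 1), e.2.1 + -k, e.2.2)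
  left_inv e := by simp
  right_inv e := by simp

/-- shift of the configurations -/
def τ (k : ℤ) (ω : Conf) : Conf := fun e => ω (e.1 + (k + 1), e.2.1 + -k, e.2.2)

theorem T_T' (k : ℤ) (x : ℤ × ℤ) : T k (T' k x) = x := by
  simp [T, T']

theorem T'_T (k : ℤ) (x : ℤ × ℤ) : T' k (T k x) = x := by
  simp [T, T']

theorem τ_eq (k : ℤ) : τ k = MeasurableEquiv.piCongrLeft (fun _ : Edge => Bool) (eT k) := by
  funext ω i
  obtain ⟨j, rfl⟩ := (eT k).surjective i
  rw [MeasurableEquiv.coe_piCongrLeft, Equiv.piCongrLeft_apply_apply]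
  show ω ((eT k).symm (eT k j)) = ω j
  rw [Equiv.symm_apply_apply]

theorem perc_map (k : ℤ) :
    perc.map (MeasurableEquiv.piCongrLeft (fun _ : Edge => Bool) (eT k)) = perc := by
  unfold perc
  exact Measure.infinitePi_map_piCongrLeft (fun _ : Edge => coin) (eT k)

theorem adj1 (a b : ℕ) (k : ℤ) (ha : (a : ℤ) = 2 * k + 1) (ω : Conf) (x y : ℤ × ℤ)
    (h : SAdj a b (τ k ω) x y) : SlitAdj a (a + b + 1) ω (T k x) (T k y) := by
  obtain ⟨d, hy, ho, h1, h2, h3, h4⟩ := h
  obtain ⟨x1, x2⟩ := x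
  subst hy
  unfold opn at ho
  rw [Bool.and_eq_true] at ho
  obtain ⟨ho1, ho2⟩ := ho
  have ho3 : ¬ Cut (edgeOf (x1, x2) d) := by simpa using ho2
  unfold SlitAdj
  push_cast
  unfold col at h1 h2 h3 h4
  cases d
  · simp only [Dir.vec, edgeOf, Cut, Prod.mk_add_mk, T, τ, OpenAdj] at *
    refine ⟨Or.inl ⟨by rw [Prod.mk.injEq]; omega, ho1⟩, by omega, by omega, by omega, by omega, ?_⟩
    simp only [true_and, false_and, or_false, Bool.true_eq_false, Bool.false_eq_true] at ho3
    omega
  · simp only [Dir.vec, edgeOf, Cut, Prod.mk_add_mk, T, τ, OpenAdj] at *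
    refine ⟨Or.inr (Or.inr (Or.inr ⟨by rw [Prod.mk.injEq]; omega, ?_⟩)), by omega, by omega,
      by omega, by omega, ?_⟩
    · rw [add_zero]
      exact ho1
    · simp only [true_and, false_and, or_false, false_or, Bool.true_eq_false,
        Bool.false_eq_true] at ho3
      omega
  · simp only [Dir.vec, edgeOf, Cut, Prod.mk_add_mk, T, τ, OpenAdj] at *
    refine ⟨Or.inr (Or.inl ⟨by rw [Prod.mk.injEq]; omega, ?_⟩), by omega, by omega,
      by omega, by omega, ?_⟩
    · rw [add_zero]
      exact ho1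
    · simp only [true_and, false_and, or_false, false_or, Bool.true_eq_false,
        Bool.false_eq_true] at ho3
      omega
  · simp only [Dir.vec, edgeOf, Cut, Prod.mk_add_mk, T, τ, OpenAdj] at *
    refine ⟨Or.inr (Or.inr (Or.inl ⟨by rw [Prod.mk.injEq]; omega, ho1⟩)), by omega, by omega,
      by omega, by omega, ?_⟩
    simp only [true_and, false_and, or_false, false_or, Bool.true_eq_false,
      Bool.false_eq_true] at ho3
    omega

theorem adj2 (a b : ℕ) (k : ℤ) (ha : (a : ℤ) = 2 * k + 1) (ω : Conf) (x y : ℤ × ℤ)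
    (h : SlitAdj a (a + b + 1) ω (T k x) (T k y)) : SAdj a b (τ k ω) x y := by
  obtain ⟨x1, x2⟩ := x
  obtain ⟨y1, y2⟩ := y
  unfold SlitAdj at h
  push_cast at h
  obtain ⟨ho, h1, h2, h3, h4, h5⟩ := h
  unfold SAdj col
  simp only [T, OpenAdj, Prod.mk.injEq] at *
  rcases ho with ⟨⟨e1, e2⟩, e3⟩ | ⟨⟨e1, e2⟩, e3⟩ | ⟨⟨e1, e2⟩, e3⟩ | ⟨⟨e1, e2⟩, e3⟩
  · obtain rfl : y1 = x1 + 1 := by omega
    obtain rfl : y2 = x2 := by omega
    refine ⟨Dir.E, by simp [Dir.vec], ?_, by omega, by omega, by omega, by omega⟩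
    unfold opn
    rw [Bool.and_eq_true]
    refine ⟨e3, ?_⟩
    have : ¬ Cut (edgeOf (x1, y2) Dir.E) := by
      simp only [edgeOf, Cut, true_and, false_and, or_false, Bool.false_eq_true]
      omega
    simpa using this
  · obtain rfl : x1 = y1 + 1 := by omega
    obtain rfl : x2 = y2 := by omega
    refine ⟨Dir.W, by simp [Dir.vec], ?_, by omega, by omega, by omega, by omega⟩
    unfold opn
    rw [Bool.and_eq_true]
    refine ⟨?_, ?_⟩
    · simp only [edgeOf, τ, add_sub_cancel_right]
      exact e3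
    have : ¬ Cut (edgeOf (y1 + 1, x2) Dir.W) := by
      simp only [edgeOf, Cut, true_and, false_and, or_false, Bool.false_eq_true]
      omega
    simpa using this
  · obtain rfl : y1 = x1 := by omega
    obtain rfl : y2 = x2 + 1 := by omega
    refine ⟨Dir.N, by simp [Dir.vec], ?_, by omega, by omega, by omega, by omega⟩
    unfold opn
    rw [Bool.and_eq_true]
    refine ⟨e3, ?_⟩
    have : ¬ Cut (edgeOf (y1, x2) Dir.N) := by
      simp only [edgeOf, Cut, true_and, false_and, false_or, Bool.true_eq_false]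
      omega
    simpa using this
  · obtain rfl : x1 = y1 := by omega
    obtain rfl : x2 = y2 + 1 := by omega
    refine ⟨Dir.S, by simp [Dir.vec], ?_, by omega, by omega, by omega, by omega⟩
    unfold opn
    rw [Bool.and_eq_true]
    refine ⟨?_, ?_⟩
    · simp only [edgeOf, τ, add_sub_cancel_right]
      exact e3
    have : ¬ Cut (edgeOf (x1, y2 + 1) Dir.S) := by
      simp only [edgeOf, Cut, true_and, false_and, false_or, Bool.true_eq_false]
      omega
    simpa using this

theorem cross_iff (a b : ℕ) (k : ℤ) (ha : (a : ℤ) = 2 * k + 1) (ω : Conf) :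
    ω ∈ Cross a b ↔ τ k ω ∈ CrossC a b := by
  constructor
  · rintro ⟨x, y, h1, h2, h3, h4⟩
    refine ⟨T' k x, T' k y, ?_, ?_, ?_⟩
    · unfold OnBank
      simp only [T']
      omega
    · unfold col
      simp only [T']
      push_cast at h3
      omega
    · refine Relation.ReflTransGen.lift (T' k) ?_ _ _ h4
      intro u v huv
      apply adj2 a b k ha
      rw [T_T', T_T']
      exact huv
  · rintro ⟨x, y, h1, h2, h3⟩
    refine ⟨T k x, T k y, ?_, ?_, ?_, ?_⟩
    · unfold OnBank at h1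
      simp only [T]
      omega
    · unfold OnBank at h1
      simp only [T]
      omega
    · unfold col at h2
      simp only [T]
      push_cast
      omega
    · exact Relation.ReflTransGen.lift (T k) (fun u v huv => adj1 a b k ha ω u v huv) _ _ h3

end TRAux

open TRAux in
theorem t_TR : S_TR := by
  intro a b hodd
  obtain ⟨k, hk⟩ := hodd
  have ha : (a : ℤ) = 2 * (k : ℤ) + 1 := by exact_mod_cast hk
  have h1 : Cross a b = (MeasurableEquiv.piCongrLeft (fun _ : Edge => Bool) (eT k)) ⁻¹'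
      (CrossC a b) := by
    ext ω
    rw [cross_iff a b k ha, τ_eq]
    rfl
  have h2 : perc (CrossC a b) = perc (Cross a b) := by
    rw [h1, ← MeasurableEquiv.map_apply, perc_map]
  unfold Measure.real
  rw [h2]

end Pool.Agent.H984P
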